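import Mathlib

/-!
# Lexicographic initial segments of words do not always have minimal deletion shadow

Words of length `n + 1` over the alphabet `Fin r` (the letter `x : Fin r` stands for `x + 1`).
For `r = 4` and words of length `3`, the family `F_s` for the signature
`s = (c_4, c_3, c_2, c_1) = (1, 0, 1, 1)` has `36` words and a deletion shadow of size `13`, while
the family of all words `a b c` with `a, b ≠ 4` also has `36` words and a shadow of size `12`.
-/

set_option autoImplicit false

namespace Pool.Agent.Results.MP_5f67f4_co.LexFails

/-- The words of length `n` over an alphabet with `r` letters. -/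
abbrev Word (r n : ℕ) : Type := Fin n → Fin r

/-- The word obtained from `w` by deleting the letter in position `i`. -/
def deleteAt {r n : ℕ} (w : Word r (n + 1)) (i : Fin (n + 1)) : Word r n :=
  fun j => w (i.succAbove j)

/-- The deletion shadow of a family of words: all words obtained by deleting one letter from a
member of the family. -/
def shadow {r n : ℕ} (F : Finset (Word r (n + 1))) : Finset (Word r n) :=
  F.biUnion fun w => Finset.univ.image (deleteAt w)

/-- `F` has minimal deletion shadow given its size. -/
def HasMinimalShadow {r n : ℕ} (F : Finset (Word r (n + 1))) : Prop :=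
  ∀ G : Finset (Word r (n + 1)), G.card = F.card → (shadow F).card ≤ (shadow G).card

/-- `c_x(w)`, the number of occurrences of the letter `x` in `w`. -/
def count {r n : ℕ} (x : Fin r) (w : Word r n) : ℕ :=
  (Finset.univ.filter fun j => w j = x).card

/-- The signature `(c_r(w), c_{r-1}(w), …, c_1(w))`, the count of the largest letter comes first. -/
def signature {r n : ℕ} (w : Word r n) : Fin r → ℕ := fun i => count i.rev w

/-- The strict lexicographic order of vectors: `p i < q i` at the first coordinate `i` at which
they differ. -/
def LexLT {r : ℕ} (p q : Fin r → ℕ) : Prop := ∃ i, (∀ j, j < i → p j = q j) ∧ p i < q i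

instance {r : ℕ} (p q : Fin r → ℕ) : Decidable (LexLT p q) := by
  unfold LexLT; infer_instance

/-- The family `F_s` of all words whose signature is lexicographically at most `s`. -/
def family {r : ℕ} (n : ℕ) (s : Fin r → ℕ) : Finset (Word r n) :=
  Finset.univ.filter fun w => signature w = s ∨ LexLT (signature w) s

/-- the competitor: words `a b c` over four letters in which only `c` may be the largest letter -/
def competitor : Finset (Word 4 3) :=
  Finset.univ.filter fun w => w 0 ≠ 3 ∧ w 1 ≠ 3

theorem result : ¬ ∀ (r n : ℕ), 2 ≤ r → ∀ s : Fin r → ℕ, ∑ i, s i = n + 1 →
    HasMinimalShadow (family (n + 1) s) := by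
  intro h
  have h1 := h 4 2 (by norm_num) ![1, 0, 1, 1] (by decide) competitor (by decide +kernel)
  revert h1
  decide +kernel

end Pool.Agent.Results.MP_5f67f4_co.LexFails
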